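import Mathlib
import Pool.Agent.N877.P21.Defs

/-!
# The Hecke relations at `2` for the ternary form of level `21`
-/

set_option autoImplicit false

namespace Pool.Agent.N712.P21

open Finset Pool.Agent.N877.P21
open Pool.Agent.N969.P15 (V3 ep2 Ev)

/-- positivity: a vector of norm `n` lies in the box -/
theorem sq_le (v : V3) (i : Fin 3) : v i ^ 2 ≤ ip v v := by
  fin_cases i
  · show v 0 ^ 2 ≤ ip v v
    unfold ip
    nlinarith [sq_nonneg (v 0), sq_nonneg (v 1 + v 2), sq_nonneg (v 1), sq_nonneg (v 2)]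
  · show v 1 ^ 2 ≤ ip v v
    unfold ip
    nlinarith [sq_nonneg (v 0), sq_nonneg (v 1 + v 2), sq_nonneg (v 1), sq_nonneg (v 2)]
  · show v 2 ^ 2 ≤ ip v v
    unfold ip
    nlinarith [sq_nonneg (v 0), sq_nonneg (v 1 + v 2), sq_nonneg (v 1), sq_nonneg (v 2)]

theorem mem_vec (n : ℤ) (v : V3) : v ∈ vec n ↔ ip v v = n := by
  unfold vec
  rw [mem_filter, Fintype.mem_piFinset]
  constructor
  · exact fun h => h.2
  · intro h
    refine ⟨fun i => ?_, h⟩
    have h1 := sq_le v i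
    rw [h] at h1
    rw [mem_Icc]
    constructor
    · nlinarith [Int.le_self_sq (-(v i)), sq_nonneg (v i)]
    · nlinarith [Int.le_self_sq (v i), sq_nonneg (v i)]

/-- the basic similitude -/
def m0 (v : V3) : V3 := ![2 * (v 1 + v 2), v 0 + v 1 - v 2, v 0 - v 1 + v 2]

/-- the rotation of order three -/
def ro (v : V3) : V3 := ![v 0, -v 1 - v 2, v 1]

/-- its inverse -/
def ri (v : V3) : V3 := ![v 0, v 2, -v 1 - v 2]

/-- the swap -/
def sw (v : V3) : V3 := ![v 0, v 2, v 1]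

/-- the reflection -/
def fl (v : V3) : V3 := ![-v 0, v 1, v 2]

@[simp] theorem m0_0 (v : V3) : m0 v 0 = 2 * (v 1 + v 2) := rfl
@[simp] theorem m0_1 (v : V3) : m0 v 1 = v 0 + v 1 - v 2 := rfl
@[simp] theorem m0_2 (v : V3) : m0 v 2 = v 0 - v 1 + v 2 := rfl
@[simp] theorem ro_0 (v : V3) : ro v 0 = v 0 := rfl
@[simp] theorem ro_1 (v : V3) : ro v 1 = -v 1 - v 2 := rfl
@[simp] theorem ro_2 (v : V3) : ro v 2 = v 1 := rfl
@[simp] theorem ri_0 (v : V3) : ri v 0 = v 0 := rfl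
@[simp] theorem ri_1 (v : V3) : ri v 1 = v 2 := rfl
@[simp] theorem ri_2 (v : V3) : ri v 2 = -v 1 - v 2 := rfl
@[simp] theorem sw_0 (v : V3) : sw v 0 = v 0 := rfl
@[simp] theorem sw_1 (v : V3) : sw v 1 = v 2 := rfl
@[simp] theorem sw_2 (v : V3) : sw v 2 = v 1 := rfl
@[simp] theorem fl_0 (v : V3) : fl v 0 = -v 0 := rfl
@[simp] theorem fl_1 (v : V3) : fl v 1 = v 1 := rfl
@[simp] theorem fl_2 (v : V3) : fl v 2 = v 2 := rfl

theorem ext3 {v w : V3} (h0 : v 0 = w 0) (h1 : v 1 = w 1) (h2 : v 2 = w 2) : v = w := by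
  funext i
  fin_cases i
  · exact h0
  · exact h1
  · exact h2

theorem ip_m0 (v : V3) : ip (m0 v) (m0 v) = 4 * ip v v := by
  simp only [ip, m0_0, m0_1, m0_2]; ring

theorem ip_ro (v : V3) : ip (ro v) (ro v) = ip v v := by
  simp only [ip, ro_0, ro_1, ro_2]; ring

theorem ip_sw (v : V3) : ip (sw v) (sw v) = ip v v := by
  simp only [ip, sw_0, sw_1, sw_2]; ring

theorem ip_fl (v : V3) : ip (fl v) (fl v) = ip v v := by
  simp only [ip, fl_0, fl_1, fl_2]; ring

theorem ro_ri (v : V3) : ro (ri v) = v :=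
  ext3 (by simp) (by simp; try ring) (by simp; try ring)

theorem ri_ro (v : V3) : ri (ro v) = v :=
  ext3 (by simp) (by simp) (by simp; try ring)

theorem sw_sw (v : V3) : sw (sw v) = v :=
  ext3 (by simp) (by simp) (by simp)

theorem fl_fl (v : V3) : fl (fl v) = v :=
  ext3 (by simp) (by simp) (by simp)

theorem ip_ri (v : V3) : ip (ri v) (ri v) = ip v v := by
  rw [← ip_ro (ri v), ro_ri]

theorem m0_m0 (v : V3) : m0 (m0 v) = fun i => 4 * v i :=
  ext3 (by simp; ring) (by simp; ring) (by simp; ring)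

theorem m0_inj {v w : V3} (h : m0 v = m0 w) : v = w := by
  have h1 := congrArg m0 h
  rw [m0_m0, m0_m0] at h1
  refine ext3 ?_ ?_ ?_
  · have := congrFun h1 0; simp at this; exact this
  · have := congrFun h1 1; simp at this; exact this
  · have := congrFun h1 2; simp at this; exact this

/-- invariance of counts under an isometry -/
theorem card_iso (f g : V3 → V3) (hf : ∀ v, ip (f v) (f v) = ip v v) (hfg : ∀ v, f (g v) = v)
    (hgf : ∀ v, g (f v) = v) (n : ℤ) (P : V3 → Prop) [DecidablePred P] :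
    ((vec n).filter fun v => P (f v)).card = ((vec n).filter P).card := by
  refine card_bij (fun v _ => f v) ?_ ?_ ?_
  · intro v hv
    rw [mem_filter, mem_vec] at hv ⊢
    exact ⟨by rw [hf]; exact hv.1, hv.2⟩
  · intro v _ w _ h
    rw [← hgf v, ← hgf w, h]
  · intro w hw
    rw [mem_filter, mem_vec] at hw
    refine ⟨g w, ?_, hfg w⟩
    rw [mem_filter, mem_vec, hfg, ← hf, hfg]
    exact hw

/-- rotation invariance of counts -/
theorem card_ro (n : ℤ) (P : V3 → Prop) [DecidablePred P] :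
    ((vec n).filter fun v => P (ro v)).card = ((vec n).filter P).card :=
  card_iso ro ri ip_ro ro_ri ri_ro n P

theorem card_sw (n : ℤ) (P : V3 → Prop) [DecidablePred P] :
    ((vec n).filter fun v => P (sw v)).card = ((vec n).filter P).card :=
  card_iso sw sw ip_sw sw_sw sw_sw n P

theorem card_fl (n : ℤ) (P : V3 → Prop) [DecidablePred P] :
    ((vec n).filter fun v => P (fl v)).card = ((vec n).filter P).card :=
  card_iso fl fl ip_fl fl_fl fl_fl n P

/-- the image of the basic similitude -/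
def A0 (w : V3) : Prop := (2 : ℤ) ∣ w 0 ∧ (4 : ℤ) ∣ w 0 + w 1 - w 2

instance : DecidablePred A0 := fun w => by unfold A0; infer_instance

theorem card_m0 (n : ℤ) (P : V3 → Prop) [DecidablePred P] :
    ((vec n).filter fun v => P (m0 v)).card = ((vec (4 * n)).filter fun w => P w ∧ A0 w).card := by
  refine card_bij (fun v _ => m0 v) ?_ ?_ ?_
  · intro v hv
    rw [mem_filter, mem_vec] at hv ⊢
    refine ⟨by rw [ip_m0, hv.1], hv.2, ?_, ?_⟩
    · simp only [m0_0]; omega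
    · simp only [m0_0, m0_1, m0_2]; omega
  · intro v _ w _ h
    exact m0_inj h
  · intro w hw
    rw [mem_filter, mem_vec] at hw
    obtain ⟨h1, h2, h3, h4⟩ := hw
    obtain ⟨a, ha⟩ := h3
    obtain ⟨b, hb⟩ := h4
    obtain ⟨c, hc⟩ : ∃ c : ℤ, w 1 + w 2 = 2 * c := ⟨2 * b - a + w 2, by omega⟩
    have hm : m0 ![c, b, a - b] = w := by
      refine ext3 ?_ ?_ ?_
      · simp; omega
      · simp; omega
      · simp; omega
    refine ⟨![c, b, a - b], ?_, hm⟩
    rw [mem_filter, mem_vec]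
    refine ⟨?_, by rw [hm]; exact h2⟩
    have h6 := ip_m0 ![c, b, a - b]
    rw [hm, h1] at h6
    omega

/-- the vectors divisible by `2` -/
def E (w : V3) : Prop := (2 : ℤ) ∣ w 0 ∧ (2 : ℤ) ∣ w 1 ∧ (2 : ℤ) ∣ w 2

instance : DecidablePred E := fun w => by unfold E; infer_instance

theorem card_E (n : ℤ) (P : V3 → Prop) [DecidablePred P] (hP : ∀ v : V3, P (fun i => 2 * v i) ↔ P v) :
    ((vec (4 * n)).filter fun w => P w ∧ E w).card = ((vec n).filter P).card := by
  symm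
  refine card_bij (fun v _ => fun i => 2 * v i) ?_ ?_ ?_
  · intro v hv
    rw [mem_filter, mem_vec] at hv ⊢
    refine ⟨?_, (hP v).2 hv.2, ⟨_, rfl⟩, ⟨_, rfl⟩, ⟨_, rfl⟩⟩
    have h1 := hv.1
    unfold ip at h1 ⊢
    linear_combination 4 * h1
  · intro v _ w _ h
    funext i
    have := congrFun h i
    simp at this
    exact this
  · intro w hw
    rw [mem_filter, mem_vec] at hw
    obtain ⟨h1, h2, ⟨a, ha⟩, ⟨b, hb⟩, ⟨c, hc⟩⟩ := hw
    have hm : (fun i => 2 * (![a, b, c] : V3) i) = w := by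
      refine ext3 ?_ ?_ ?_
      · simp; omega
      · simp; omega
      · simp; omega
    refine ⟨![a, b, c], ?_, hm⟩
    rw [mem_filter, mem_vec]
    refine ⟨?_, by rw [← hP, hm]; exact h2⟩
    unfold ip at h1 ⊢
    rw [ha, hb, hc] at h1
    simp
    linarith

/-! ### finite checks -/

/-- the form on residues -/
def qf (a b c : ℕ) : ℕ := 3 * (a * a) + 4 * (b * b) + 4 * (c * c) + 4 * (b * c)

theorem check1 : ∀ a b c : Fin 8, ¬ (a.val % 2 = 0 ∧ b.val % 2 = 0 ∧ c.val % 2 = 0) →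
    (qf a.val b.val c.val % 16 = 12 ∨ qf a.val b.val c.val % 16 = 0) →
    (if a.val % 2 = 0 ∧ (a.val + b.val + 3 * c.val) % 4 = 0 then (1 : ℕ) else 0) +
    (if a.val % 2 = 0 ∧ (a.val + b.val + 2 * c.val) % 4 = 0 then 1 else 0) +
    (if a.val % 2 = 0 ∧ (a.val + 2 * b.val + 3 * c.val) % 4 = 0 then 1 else 0) = 1 := by
  decide

theorem check2 : ∀ a b c : Fin 8, qf a.val b.val c.val % 4 = 3 →
    ((if (a.val + b.val + c.val) % 2 = 0 then (1 : ℤ) else 0) +
    (if (a.val + b.val) % 2 = 0 then 1 else 0) +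
    (if (a.val + c.val) % 2 = 0 then 1 else 0)) = 1 + (if qf a.val b.val c.val % 8 = 7 then 1 else -1)
      := by
  decide

theorem check2E : ∀ a b c : Fin 8, (qf a.val b.val c.val % 16 = 4 ∨ qf a.val b.val c.val % 16 = 8) →
    ((if (a.val + b.val + c.val) % 2 = 0 then (1 : ℤ) else 0) +
    (if (a.val + b.val) % 2 = 0 then 1 else 0) +
    (if (a.val + c.val) % 2 = 0 then 1 else 0)) = 1 := by
  decide

/-- reduction modulo `8` -/
theorem red (w : V3) : ∃ a b c : Fin 8, (∃ p q r : ℤ, w 0 = 8 * p + (a.val : ℤ) ∧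
    w 1 = 8 * q + (b.val : ℤ) ∧ w 2 = 8 * r + (c.val : ℤ)) ∧ ∃ K : ℤ, ip w w =
      (qf a.val b.val c.val : ℤ) + 16 * K := by
  have key : ∀ x : ℤ, ∃ a : Fin 8, ∃ p : ℤ, x = 8 * p + (a.val : ℤ) := by
    intro x
    refine ⟨⟨(x % 8).toNat, by omega⟩, x / 8, ?_⟩
    show x = 8 * (x / 8) + ((x % 8).toNat : ℤ)
    omega
  obtain ⟨a, p, ha⟩ := key (w 0)
  obtain ⟨b, q, hb⟩ := key (w 1)
  obtain ⟨c, r, hc⟩ := key (w 2)
  refine ⟨a, b, c, ⟨p, q, r, ha, hb, hc⟩, 12 * p ^ 2 + 3 * p * a.val + 16 * q ^ 2 + 4 * q * b.val +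
    16 * r ^ 2 + 4 * r * c.val + 16 * q * r + 2 * q * c.val + 2 * r * b.val, ?_⟩
  unfold ip qf
  rw [ha, hb, hc]
  push_cast
  ring

theorem count1 {n : ℤ} (hn : n % 16 = 12 ∨ n % 16 = 0) {w : V3} (hw : ip w w = n) (hE : ¬ E w) :
    (if A0 w then (1 : ℤ) else 0) + (if A0 (ri w) then 1 else 0) +
      (if A0 (ri (ri w)) then 1 else 0) = 1 := by
  obtain ⟨a, b, c, ⟨p, q, r, h0, h1, h2⟩, K, hK⟩ := red w
  have h := check1 a b c (by
    intro hh
    apply hE
    unfold E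
    omega) (by omega)
  have e1 : (A0 w) ↔ (a.val % 2 = 0 ∧ (a.val + b.val + 3 * c.val) % 4 = 0) := by
    unfold A0; omega
  have e2 : (A0 (ri w)) ↔ (a.val % 2 = 0 ∧ (a.val + b.val + 2 * c.val) % 4 = 0) := by
    unfold A0
    simp only [ri_0, ri_1, ri_2]
    omega
  have e3 : (A0 (ri (ri w))) ↔ (a.val % 2 = 0 ∧ (a.val + 2 * b.val + 3 * c.val) % 4 = 0) := by
    unfold A0
    simp only [ri_0, ri_1, ri_2]
    omega
  simp only [e1, e2, e3]
  exact_mod_cast h

theorem count2 {n : ℕ} (hn : n % 4 = 3) {v : V3} (hv : ip v v = n) :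
    (if A0 (fun i => 2 * v i) then (1 : ℤ) else 0) + (if A0 (ri (fun i => 2 * v i)) then 1 else 0) +
      (if A0 (ri (ri (fun i => 2 * v i))) then 1 else 0) = 1 + ep2 n := by
  obtain ⟨a, b, c, ⟨p, q, r, h0, h1, h2⟩, K, hK⟩ := red v
  have h := check2 a b c (by omega)
  have e1 : (A0 (fun i => 2 * v i)) ↔ ((a.val + b.val + c.val) % 2 = 0) := by
    unfold A0
    beta_reduce
    omega
  have e2 : (A0 (ri (fun i => 2 * v i))) ↔ ((a.val + b.val) % 2 = 0) := by
    unfold A0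
    simp only [ri_0, ri_1, ri_2]
    omega
  have e3 : (A0 (ri (ri (fun i => 2 * v i)))) ↔ ((a.val + c.val) % 2 = 0) := by
    unfold A0
    simp only [ri_0, ri_1, ri_2]
    omega
  simp only [e1, e2, e3, h, ep2]
  generalize qf a.val b.val c.val = X at hK ⊢
  have e4 : (X % 8 = 7) ↔ n % 8 = 7 := by omega
  simp only [e4]

theorem count2E {n : ℤ} (hn : n % 16 = 4 ∨ n % 16 = 8) {v : V3} (hv : ip v v = n) :
    (if A0 (fun i => 2 * v i) then (1 : ℤ) else 0) + (if A0 (ri (fun i => 2 * v i)) then 1 else 0) +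
      (if A0 (ri (ri (fun i => 2 * v i))) then 1 else 0) = 1 := by
  obtain ⟨a, b, c, ⟨p, q, r, h0, h1, h2⟩, K, hK⟩ := red v
  have h := check2E a b c (by omega)
  have e1 : (A0 (fun i => 2 * v i)) ↔ ((a.val + b.val + c.val) % 2 = 0) := by
    unfold A0
    beta_reduce
    omega
  have e2 : (A0 (ri (fun i => 2 * v i))) ↔ ((a.val + b.val) % 2 = 0) := by
    unfold A0
    simp only [ri_0, ri_1, ri_2]
    omega
  have e3 : (A0 (ri (ri (fun i => 2 * v i)))) ↔ ((a.val + c.val) % 2 = 0) := by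
    unfold A0
    simp only [ri_0, ri_1, ri_2]
    omega
  simp only [e1, e2, e3, h]

/-- three times the number of vectors in the image -/
theorem main0 (n : ℤ) (P : V3 → Prop) [DecidablePred P] (hR : ∀ v : V3, P (ro v) ↔ P v) :
    3 * (((vec n).filter fun v => P (m0 v)).card : ℤ) =
      ∑ w ∈ (vec (4 * n)).filter P, ((if A0 w then (1 : ℤ) else 0) +
        (if A0 (ri w) then 1 else 0) + (if A0 (ri (ri w)) then 1 else 0)) := by
  have s1 : ((vec (4 * n)).filter fun w => P w ∧ A0 w).card =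
      ((vec (4 * n)).filter fun w => P w ∧ A0 (ri w)).card := by
    rw [← card_ro (4 * n) (fun w => P w ∧ A0 (ri w))]
    congr 1
    ext w
    simp only [mem_filter, hR, ri_ro]
  have s2 : ((vec (4 * n)).filter fun w => P w ∧ A0 w).card =
      ((vec (4 * n)).filter fun w => P w ∧ A0 (ri (ri w))).card := by
    rw [s1, ← card_ro (4 * n) (fun w => P w ∧ A0 (ri (ri w)))]
    congr 1
    ext w
    simp only [mem_filter, hR, ri_ro]
  have s3 : ∀ Q : V3 → Prop, ∀ [DecidablePred Q],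
      (((vec (4 * n)).filter fun w => P w ∧ Q w).card : ℤ) =
      ∑ w ∈ (vec (4 * n)).filter P, if Q w then (1 : ℤ) else 0 := by
    intro Q _
    rw [← filter_filter, card_filter]
    push_cast
    rfl
  rw [sum_add_distrib, sum_add_distrib, ← s3 A0, ← s3 (fun w => A0 (ri w)),
    ← s3 (fun w => A0 (ri (ri w))), ← s1, ← s2, card_m0]
  ring

/-- an even vector is twice a vector -/
theorem half {n : ℤ} {w : V3} (hw : ip w w = 4 * n) (hE : E w) :
    ∃ v : V3, (fun i => 2 * v i) = w ∧ ip v v = n := by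
  obtain ⟨⟨a, ha⟩, ⟨b, hb⟩, ⟨c, hc⟩⟩ := id hE
  refine ⟨![a, b, c], ?_, ?_⟩
  · refine ext3 ?_ ?_ ?_
    · simp; omega
    · simp; omega
    · simp; omega
  · unfold ip at hw ⊢
    rw [ha, hb, hc] at hw
    simp
    linarith

/-- the main counting identity -/
theorem main {n : ℕ} (hn : n % 4 = 3) (P : V3 → Prop) [DecidablePred P]
    (hP : ∀ v : V3, P (fun i => 2 * v i) ↔ P v) (hR : ∀ v : V3, P (ro v) ↔ P v) :
    3 * (((vec n).filter fun v => P (m0 v)).card : ℤ) =
      ((vec (4 * n)).filter P).card + ep2 n * ((vec n).filter P).card := by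
  have s3 : ∀ Q : V3 → Prop, ∀ [DecidablePred Q],
      (((vec (4 * n)).filter fun w => P w ∧ Q w).card : ℤ) =
      ∑ w ∈ (vec (4 * n)).filter P, if Q w then (1 : ℤ) else 0 := by
    intro Q _
    rw [← filter_filter, card_filter]
    push_cast
    rfl
  rw [main0 n P hR]
  have s5 : ∀ w ∈ (vec (4 * n)).filter P, ((if A0 w then (1 : ℤ) else 0) +
        (if A0 (ri w) then 1 else 0) + (if A0 (ri (ri w)) then 1 else 0)) =
        1 + ep2 n * (if E w then 1 else 0) := by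
    intro w hw
    rw [mem_filter, mem_vec] at hw
    by_cases hE : E w
    · obtain ⟨v, hm, h2⟩ := half hw.1 hE
      have h3 := count2 hn h2
      rw [hm] at h3
      rw [h3, if_pos hE]
      ring
    · rw [if_neg hE, count1 (n := 4 * n) (by omega) hw.1 hE]
      ring
  rw [sum_congr rfl s5, sum_add_distrib, ← mul_sum, ← s3 E, card_E n P hP]
  simp

/-- the main counting identity, ramified case -/
theorem mainE {n : ℤ} (hn : n % 16 = 4 ∨ n % 16 = 8) (P : V3 → Prop) [DecidablePred P]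
    (hR : ∀ v : V3, P (ro v) ↔ P v) :
    3 * (((vec n).filter fun v => P (m0 v)).card : ℤ) = ((vec (4 * n)).filter P).card := by
  rw [main0 n P hR]
  have s5 : ∀ w ∈ (vec (4 * n)).filter P, ((if A0 w then (1 : ℤ) else 0) +
        (if A0 (ri w) then 1 else 0) + (if A0 (ri (ri w)) then 1 else 0)) = 1 := by
    intro w hw
    rw [mem_filter, mem_vec] at hw
    by_cases hE : E w
    · obtain ⟨v, hm, h2⟩ := half hw.1 hE
      have h3 := count2E hn h2
      rw [hm] at h3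
      exact h3
    · exact count1 (n := 4 * n) (by omega) hw.1 hE
  rw [sum_congr rfl s5, sum_const]
  simp

/-! ### the isotropic lines modulo `7` -/

/-- orthogonality to the base line -/
def L (v : V3) : Prop := (7 : ℤ) ∣ 3 * v 1 + v 2

instance : DecidablePred L := fun w => by unfold L; infer_instance

/-- the eight indicators -/
def ind (a b c : ZMod 7) : ℕ :=
  (if 3 * b + c = 0 then 1 else 0) + (if 3 * c + b = 0 then 1 else 0) +
  (if 3 * (a + b - c) + (a - b + c) = 0 then 1 else 0) +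
  (if 3 * (a + (-b - c) - b) + (a - (-b - c) + b) = 0 then 1 else 0) +
  (if 3 * (a + (-(-b - c) - b) - (-b - c)) + (a - (-(-b - c) - b) + (-b - c)) = 0 then 1 else 0) +
  (if 3 * (-a + b - c) + (-a - b + c) = 0 then 1 else 0) +
  (if 3 * (-a + (-b - c) - b) + (-a - (-b - c) + b) = 0 then 1 else 0) +
  (if 3 * (-a + (-(-b - c) - b) - (-b - c)) + (-a - (-(-b - c) - b) + (-b - c)) = 0 then 1 else 0)

theorem check3 : ∀ a b c : ZMod 7,
    (3 * (a * a) + 4 * (b * b) + 4 * (c * c) + 2 * (b * c + c * b) = 3 ∨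
    3 * (a * a) + 4 * (b * b) + 4 * (c * c) + 2 * (b * c + c * b) = 5 ∨
    3 * (a * a) + 4 * (b * b) + 4 * (c * c) + 2 * (b * c + c * b) = 6) → ind a b c = 2 := by
  decide +kernel

theorem check4 : ∀ a b c : ZMod 7, (a ≠ 0 ∨ b ≠ 0 ∨ c ≠ 0) →
    3 * (a * a) + 4 * (b * b) + 4 * (c * c) + 2 * (b * c + c * b) = 0 → ind a b c = 1 := by
  decide +kernel

/-- the sum of the indicators of the eight lines -/
def LS (v : V3) : ℤ :=
  (if L v then 1 else 0) + (if L (sw v) then 1 else 0) +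
  (if L (m0 v) then 1 else 0) + (if L (m0 (ro v)) then 1 else 0) +
  (if L (m0 (ro (ro v))) then 1 else 0) +
  (if L (m0 (fl v)) then 1 else 0) + (if L (m0 (ro (fl v))) then 1 else 0) +
  (if L (m0 (ro (ro (fl v)))) then 1 else 0)

theorem key7 (x : ℤ) : (7 : ℤ) ∣ x ↔ (x : ZMod 7) = 0 :=
  ((ZMod.intCast_zmod_eq_zero_iff_dvd x 7)).symm

theorem LS_ind (v : V3) : LS v = ind (v 0 : ZMod 7) (v 1 : ZMod 7) (v 2 : ZMod 7) := by
  unfold LS ind L
  simp only [key7, sw_1, sw_2, fl_0, fl_1, fl_2, ro_0, ro_1, ro_2, m0_1, m0_2]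
  push_cast
  rfl

theorem ip7 (v : V3) : ((ip v v : ℤ) : ZMod 7) = 3 * ((v 0 : ZMod 7) * (v 0 : ZMod 7)) +
    4 * ((v 1 : ZMod 7) * (v 1 : ZMod 7)) + 4 * ((v 2 : ZMod 7) * (v 2 : ZMod 7)) +
    2 * ((v 1 : ZMod 7) * (v 2 : ZMod 7) + (v 2 : ZMod 7) * (v 1 : ZMod 7)) := by
  unfold ip
  push_cast
  rfl

theorem LS_two {n : ℤ} (hn : n % 7 = 3 ∨ n % 7 = 5 ∨ n % 7 = 6) {v : V3} (hv : ip v v = n) :
    LS v = 2 := by
  have h := check3 (v 0 : ZMod 7) (v 1 : ZMod 7) (v 2 : ZMod 7) (by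
    rw [← ip7, hv]
    rcases hn with h | h | h
    · left
      have : ((n : ℤ) : ZMod 7) = ((3 : ℤ) : ZMod 7) := by
        rw [ZMod.intCast_eq_intCast_iff]; exact h
      simpa using this
    · right; left
      have : ((n : ℤ) : ZMod 7) = ((5 : ℤ) : ZMod 7) := by
        rw [ZMod.intCast_eq_intCast_iff]; exact h
      simpa using this
    · right; right
      have : ((n : ℤ) : ZMod 7) = ((6 : ℤ) : ZMod 7) := by
        rw [ZMod.intCast_eq_intCast_iff]; exact h
      simpa using this)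
  rw [LS_ind, h]
  rfl

theorem LS_one {n : ℤ} (hn : (7 : ℤ) ∣ n) (h49 : ¬ (49 : ℤ) ∣ n) {v : V3} (hv : ip v v = n) :
    LS v = 1 := by
  have hnz : (v 0 : ZMod 7) ≠ 0 ∨ (v 1 : ZMod 7) ≠ 0 ∨ (v 2 : ZMod 7) ≠ 0 := by
    by_contra hcon
    push Not at hcon
    obtain ⟨c0, c1, c2⟩ := hcon
    obtain ⟨x, hx⟩ := (key7 _).2 c0
    obtain ⟨y, hy⟩ := (key7 _).2 c1
    obtain ⟨z, hz⟩ := (key7 _).2 c2
    apply h49
    rw [← hv]
    unfold ip
    rw [hx, hy, hz]
    exact ⟨3 * (x * x) + 4 * (y * y) + 4 * (z * z) + 2 * (y * z + z * y), by ring⟩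
  have h := check4 (v 0 : ZMod 7) (v 1 : ZMod 7) (v 2 : ZMod 7) hnz (by
    rw [← ip7, hv, ← key7]
    exact hn)
  rw [LS_ind, h]
  rfl

/-- summing the indicators -/
theorem LS_sum (n : ℤ) : ∑ v ∈ vec n, LS v = 2 * rr0 n +
    6 * (((vec n).filter fun v => L (m0 v)).card : ℤ) := by
  have s3 : ∀ Q : V3 → Prop, ∀ [DecidablePred Q],
      (∑ w ∈ vec n, if Q w then (1 : ℤ) else 0) = (((vec n).filter Q).card : ℤ) := by
    intro Q _
    rw [card_filter]
    push_cast
    rfl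
  have c1 := card_sw n L
  have c2 := card_ro n (fun v => L (m0 v))
  have c3 := card_ro n (fun v => L (m0 (ro v)))
  have c4 := card_fl n (fun v => L (m0 v))
  have c5 := card_fl n (fun v => L (m0 (ro v)))
  have c6 := card_fl n (fun v => L (m0 (ro (ro v))))
  have b4 : rr0 n = (((vec n).filter L).card : ℤ) := rfl
  unfold LS
  rw [sum_add_distrib, sum_add_distrib, sum_add_distrib, sum_add_distrib, sum_add_distrib,
    sum_add_distrib, sum_add_distrib, s3 L, s3 (fun v => L (sw v)), s3 (fun v => L (m0 v)),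
    s3 (fun v => L (m0 (ro v))), s3 (fun v => L (m0 (ro (ro v)))), s3 (fun v => L (m0 (fl v))),
    s3 (fun v => L (m0 (ro (fl v)))), s3 (fun v => L (m0 (ro (ro (fl v))))), c6, c5, c4, c3, c2, c1,
    b4]
  ring

/-- `7` split -/
theorem lines_two {n : ℤ} (hn : n % 7 = 3 ∨ n % 7 = 5 ∨ n % 7 = 6) :
    3 * (((vec n).filter fun v => L (m0 v)).card : ℤ) = rr n - rr0 n := by
  have h1 := LS_sum n
  rw [sum_congr rfl (fun v hv => LS_two hn ((mem_vec n v).1 hv)), sum_const, nsmul_eq_mul] at h1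
  have b2 : rr n = ((vec n).card : ℤ) := rfl
  rw [← b2] at h1
  linarith

/-- `7 ∣ n` -/
theorem lines_one {n : ℤ} (hn : (7 : ℤ) ∣ n) (h49 : ¬ (49 : ℤ) ∣ n) :
    6 * (((vec n).filter fun v => L (m0 v)).card : ℤ) = rr n - 2 * rr0 n := by
  have h1 := LS_sum n
  rw [sum_congr rfl (fun v hv => LS_one hn h49 ((mem_vec n v).1 hv)), sum_const, nsmul_eq_mul] at h1
  have b2 : rr n = ((vec n).card : ℤ) := rfl
  rw [← b2] at h1
  linarith

theorem L_two (v : V3) : L (fun i => 2 * v i) ↔ L v := by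
  show (7 : ℤ) ∣ 3 * (2 * v 1) + 2 * v 2 ↔ (7 : ℤ) ∣ 3 * v 1 + v 2
  omega

theorem L_ro (v : V3) : L (ro v) ↔ L v := by
  unfold L; simp only [ro_1, ro_2]; omega

/-- the number of vectors of norm `4 n` -/
theorem rr_four {n : ℕ} (h4 : n % 4 = 3) : rr (4 * n) = (3 - ep2 n) * rr n := by
  have a1 := main h4 (fun _ => True) (fun _ => Iff.rfl) (fun _ => Iff.rfl)
  rw [filter_true, filter_true] at a1
  have b1 : rr (4 * n) = ((vec (4 * n)).card : ℤ) := rfl
  have b2 : rr n = ((vec n).card : ℤ) := rfl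
  rw [← b1, ← b2] at a1
  linarith

theorem rr0_four {n : ℕ} (h4 : n % 4 = 3) :
    3 * (((vec n).filter fun v => L (m0 v)).card : ℤ) = rr0 (4 * n) + ep2 n * rr0 n :=
  main h4 L L_two L_ro

/-- the number of vectors of norm `16 m` -/
theorem rr_fourE {m : ℕ} (h4 : m % 4 = 1 ∨ m % 4 = 2) : rr (16 * m) = 3 * rr (4 * m) := by
  have hn : (4 * (m : ℤ)) % 16 = 4 ∨ (4 * (m : ℤ)) % 16 = 8 := by omega
  have a1 := mainE hn (fun _ => True) (fun _ => Iff.rfl)
  rw [filter_true, filter_true] at a1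
  have e16 : (4 * (4 * (m : ℤ))) = 16 * (m : ℤ) := by ring
  rw [e16] at a1
  exact a1.symm

theorem rr0_fourE {m : ℕ} (h4 : m % 4 = 1 ∨ m % 4 = 2) :
    3 * (((vec (4 * m)).filter fun v => L (m0 v)).card : ℤ) = rr0 (16 * m) := by
  have hn : (4 * (m : ℤ)) % 16 = 4 ∨ (4 * (m : ℤ)) % 16 = 8 := by omega
  have a1 := mainE hn L L_ro
  have e16 : (4 * (4 * (m : ℤ))) = 16 * (m : ℤ) := by ring
  rw [e16] at a1
  exact a1

theorem t_HE : S_HE := by
  intro n h4 h7
  refine ⟨rr_four h4, ?_⟩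
  have a2 := rr0_four h4
  have a3 := lines_two (n := (n : ℤ)) (by unfold Sp7 at h7; omega)
  linarith

theorem t_HE7 : S_HE7 := by
  intro n h4 h7 h49
  refine ⟨rr_four h4, ?_⟩
  have a2 := rr0_four h4
  have a3 := lines_one (n := (n : ℤ)) (by omega) (by omega)
  linarith

theorem t_HEE : S_HEE := by
  intro m h4 h7
  refine ⟨rr_fourE h4, ?_⟩
  have a2 := rr0_fourE h4
  have a3 := lines_two (n := 4 * (m : ℤ)) (by unfold Sp7 at h7; omega)
  linarith

theorem t_HE7E : S_HE7E := by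
  intro m h4 h7 h49
  refine ⟨rr_fourE h4, ?_⟩
  have a2 := rr0_fourE h4
  have a3 := lines_one (n := 4 * (m : ℤ)) (by omega) (by omega)
  linarith

end Pool.Agent.N712.P21
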